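import Pool.Agent.L0h99.MN.Stm2

set_option autoImplicit false

namespace Pool.Agent.L0h98.MD

open Finset Pool.Agent.L0h99.MN Pool.Agent.L0h99.MD

theorem COM : St_COM := by
  classical
  intro V _ _ G U w hw
  obtain ⟨D, hD, hmin⟩ := Finset.exists_min_image
    ((univ : Finset (Finset V)).filter fun S => w ∈ S ∧ Disjoint S U ∧
      ∀ d ∈ S, ∀ y, G.Adj d y → y ∈ S ∨ y ∈ U) Finset.card
    ⟨univ \ U, by
      rw [mem_filter]
      refine ⟨mem_univ _, by simp [hw], sdiff_disjoint, fun d _ y _ => ?_⟩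
      by_cases hy : y ∈ U
      · exact Or.inr hy
      · exact Or.inl (by simp [hy])⟩
  rw [mem_filter] at hD
  obtain ⟨-, hwD, hDU, hcl⟩ := hD
  refine ⟨D, ⟨⟨w, hwD⟩, fun X hX hXn hXD => ?_⟩, hwD, hDU, hcl⟩
  by_contra hno
  have hno' : ∀ a ∈ X, ∀ b ∈ D, b ∉ X → ¬ G.Adj a b := by
    intro a ha b hb hbX hab
    exact hno ⟨a, ha, b, mem_sdiff.2 ⟨hb, hbX⟩, hab⟩
  have hlt : X ⊂ D := hX.ssubset_of_ne hXD
  by_cases hwX : w ∈ X
  · have h1 := hmin X (by
      rw [mem_filter]
      refine ⟨mem_univ _, hwX, disjoint_of_subset_left hX hDU, fun d hd y hdy => ?_⟩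
      rcases hcl d (hX hd) y hdy with h | h
      · by_cases hyX : y ∈ X
        · exact Or.inl hyX
        · exact absurd hdy (hno' d hd y h hyX)
      · exact Or.inr h)
    have h2 := card_lt_card hlt
    omega
  · have h1 := hmin (D \ X) (by
      rw [mem_filter]
      refine ⟨mem_univ _, mem_sdiff.2 ⟨hwD, hwX⟩, disjoint_of_subset_left sdiff_subset hDU,
        fun d hd y hdy => ?_⟩
      rw [mem_sdiff] at hd
      rcases hcl d hd.1 y hdy with h | h
      · by_cases hyX : y ∈ X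
        · exact absurd hdy.symm (hno' y hyX d hd.1 hd.2)
        · exact Or.inl (mem_sdiff.2 ⟨h, hyX⟩)
      · exact Or.inr h)
    have h2 : (D \ X).card < D.card := by
      apply card_lt_card
      refine ⟨sdiff_subset, fun h => ?_⟩
      obtain ⟨x, hx⟩ := hXn
      exact (mem_sdiff.1 (h (hX hx))).2 hx
    omega

end Pool.Agent.L0h98.MD
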