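import Pool.Agent.L0h99.MN.Stm2

set_option autoImplicit false

namespace Pool.Agent.L0h98.MD

open Finset Pool.Agent.L0h99.MN Pool.Agent.L0h99.MD

theorem VF : St_VF := by
  classical
  intro V _ _ G v h
  obtain ⟨B, hB1, hB2, hB3⟩ := h
  have hv : ∀ i, v ∉ B i := by
    intro i hi
    have := mem_N.1 ((hB1 i).1 hi)
    exact G.loopless.irrefl v this
  have hne : ∀ i, ∃ x ∈ B i, G.Adj v x := by
    intro i
    obtain ⟨x, hx⟩ := (hB1 i).2.1
    exact ⟨x, hx, mem_N.1 ((hB1 i).1 hx)⟩
  refine ⟨Fin.cons {v} B, ?_, ?_, ?_⟩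
  · intro i
    refine Fin.cases ?_ (fun i => ?_) i
    · rw [Fin.cons_zero]
      refine ⟨⟨v, mem_singleton_self v⟩, fun X hX hXn hXv => ?_⟩
      exact absurd ((Finset.subset_singleton_iff.1 hX).resolve_left hXn.ne_empty) hXv
    · rw [Fin.cons_succ]
      exact (hB1 i).2
  · intro i j
    refine Fin.cases ?_ (fun i => ?_) i
    · refine Fin.cases (fun h => absurd rfl h) (fun j _ => ?_) j
      rw [Fin.cons_zero, Fin.cons_succ, disjoint_singleton_left]
      exact hv j
    · refine Fin.cases (fun _ => ?_) (fun j hij => ?_) j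
      · rw [Fin.cons_zero, Fin.cons_succ, disjoint_singleton_right]
        exact hv i
      · rw [Fin.cons_succ, Fin.cons_succ]
        exact hB2 i j fun h => hij (by rw [h])
  · intro i j
    refine Fin.cases ?_ (fun i => ?_) i
    · refine Fin.cases (fun h => absurd rfl h) (fun j _ => ?_) j
      rw [Fin.cons_zero, Fin.cons_succ]
      obtain ⟨x, hx, hvx⟩ := hne j
      exact ⟨v, mem_singleton_self v, x, hx, hvx⟩
    · refine Fin.cases (fun _ => ?_) (fun j hij => ?_) j
      · rw [Fin.cons_zero, Fin.cons_succ]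
        obtain ⟨x, hx, hvx⟩ := hne i
        exact ⟨x, hx, v, mem_singleton_self v, hvx.symm⟩
      · rw [Fin.cons_succ, Fin.cons_succ]
        exact hB3 i j fun h => hij (by rw [h])

end Pool.Agent.L0h98.MD
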